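import Mathlib

set_option autoImplicit false

namespace Pool.Agent.Results.MP_e2735d_co.LimitSet

open Filter Topology

/-- An undirected graph on the vertex set `V`, without multiple edges, loops permitted: a symmetric
relation on `V`. -/
structure LGraph (V : Type) where
  Adj : V → V → Prop
  symm : ∀ x y, Adj x y → Adj y x

/-- The strict endomorphisms: the self-maps of the vertex set that send edges (loops included) to
edges. -/
def strictEnd {V : Type} (G : LGraph V) : Set (V → V) :=
  {f | ∀ x y, G.Adj x y → G.Adj (f x) (f y)}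

/-- The automorphisms: the bijections of the vertex set that preserve edges and non-edges. -/
def aut {V : Type} (G : LGraph V) : Set (V → V) :=
  {f | Function.Bijective f ∧ ∀ x y, G.Adj x y ↔ G.Adj (f x) (f y)}

/-- The quotient of the number of automorphisms by the number of strict endomorphisms. -/
noncomputable def ratio {V : Type} (G : LGraph V) : ℝ :=
  ((aut G).ncard : ℝ) / ((strictEnd G).ncard : ℝ)

/-- The set of the limits of the quotients along sequences of finite graphs whose number of
vertices tends to infinity. -/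
def limitSet : Set ℝ :=
  {l | ∃ (n : ℕ → ℕ) (G : ∀ k, LGraph (Fin (n k))),
    Tendsto n atTop atTop ∧ Tendsto (fun k => ratio (G k)) atTop (𝓝 l)}

/-! ### The building blocks -/

/-- The odd cycle `0,1,…,2A` together with the chord `{0,d}`. -/
def HAdj (A d x y : ℕ) : Prop :=
  y = x + 1 ∨ x = y + 1 ∨ (x = 0 ∧ y = 2 * A) ∨ (x = 2 * A ∧ y = 0) ∨
    (x = 0 ∧ y = d) ∨ (x = d ∧ y = 0)

abbrev W (A r : ℕ) := Fin (2 * A + 1) ⊕ Fin r

/-- The cycle with a chord, and `r` isolated vertices. -/
def HW (A r d : ℕ) : W A r → W A r → Prop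
  | Sum.inl x, Sum.inl y => HAdj A d x y
  | _, _ => False

/-- The complement. -/
def CAdj (A r d : ℕ) (u v : W A r) : Prop := u ≠ v ∧ ¬ HW A r d u v

lemma HAdj.symm {A d x y : ℕ} (h : HAdj A d x y) : HAdj A d y x := by
  unfold HAdj at *; omega

lemma HW.symm {A r d : ℕ} {u v : W A r} (h : HW A r d u v) : HW A r d v u := by
  cases u <;> cases v <;> simp_all [HW]
  exact HAdj.symm h

lemma CAdj.symm {A r d : ℕ} {u v : W A r} (h : CAdj A r d u v) : CAdj A r d v u :=
  ⟨h.1.symm, fun h' => h.2 h'.symm⟩

/-- homomorphisms between the complements -/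
def IsHom (A r d d' : ℕ) (f : W A r → W A r) : Prop :=
  ∀ u v, CAdj A r d u v → CAdj A r d' (f u) (f v)

lemma triangle_free {A d : ℕ} (h3 : 3 ≤ d) (hA : d ≤ A) {x y z : ℕ} (hx : x ≤ 2 * A)
    (hy : y ≤ 2 * A) (hz : z ≤ 2 * A) (h1 : HAdj A d x y) (h2 : HAdj A d y z) (h3 : HAdj A d x z) : False := by
  unfold HAdj at *; omega

/-- colouring of the complement minus a vertex with `A + r` colours -/
lemma exists_colouring (A r d : ℕ) (y0 : W A r) :
    ∃ c : W A r → ℕ, (∀ w, w ≠ y0 → c w < A + r) ∧
      ∀ w w', w ≠ y0 → w' ≠ y0 → w ≠ w' → c w = c w' → HW A r d w w' := by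
  rcases y0 with y | i0
  · refine ⟨fun w => match w with
      | Sum.inl x => ((if (y : ℕ) < x then (x : ℕ) - y else x + (2 * A + 1) - y) - 1) / 2
      | Sum.inr i => A + i, ?_, ?_⟩
    · rintro (x | i) h
      · have : x ≠ y := fun h' => h (by rw [h'])
        have h2 : (x : ℕ) ≠ y := fun h' => this (Fin.ext h')
        have hx := x.2
        have hy := y.2
        show ((if (y : ℕ) < x then (x : ℕ) - y else x + (2 * A + 1) - y) - 1) / 2 < A + r
        split_ifs <;> omega
      · have := i.2
        show A + (i : ℕ) < A + r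
        omega
    · rintro (x | i) (x' | i') h h' hne hc
      · have h1 : (x : ℕ) ≠ y := fun h' => h (by rw [Fin.ext h'])
        have h2 : (x' : ℕ) ≠ y := fun h'' => h' (by rw [Fin.ext h''])
        have h3 : (x : ℕ) ≠ x' := fun h'' => hne (by rw [Fin.ext h''])
        have hx := x.2
        have hx' := x'.2
        have hy := y.2
        simp only at hc
        show HAdj A d x x'
        unfold HAdj
        split_ifs at hc <;> omega
      · exfalso
        have h1 : (x : ℕ) ≠ y := fun h' => h (by rw [Fin.ext h'])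
        have hx := x.2
        have hy := y.2
        simp only at hc
        split_ifs at hc <;> omega
      · exfalso
        have h1 : (x' : ℕ) ≠ y := fun h'' => h' (by rw [Fin.ext h''])
        have hx := x'.2
        have hy := y.2
        simp only at hc
        split_ifs at hc <;> omega
      · exfalso
        apply hne
        simp only at hc
        congr 1
        apply Fin.ext
        omega
  · refine ⟨fun w => match w with
      | Sum.inl x => (x : ℕ) / 2
      | Sum.inr i => if (i : ℕ) < i0 then A + 1 + i else A + i, ?_, ?_⟩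
    · rintro (x | i) h
      · have hx := x.2
        have hi := i0.2
        show (x : ℕ) / 2 < A + r
        omega
      · have h2 : (i : ℕ) ≠ i0 := fun h' => h (by rw [Fin.ext h'])
        have hi := i.2
        have hi0 := i0.2
        show (if (i : ℕ) < i0 then A + 1 + (i : ℕ) else A + i) < A + r
        split_ifs <;> omega
    · rintro (x | i) (x' | i') h h' hne hc
      · have h3 : (x : ℕ) ≠ x' := fun h'' => hne (by rw [Fin.ext h''])
        have hx := x.2
        have hx' := x'.2
        simp only at hc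
        show HAdj A d x x'
        unfold HAdj
        omega
      · exfalso
        have h2 : (i' : ℕ) ≠ i0 := fun h'' => h' (by rw [Fin.ext h''])
        have hx := x.2
        simp only at hc
        split_ifs at hc <;> omega
      · exfalso
        have h2 : (i : ℕ) ≠ i0 := fun h'' => h (by rw [Fin.ext h''])
        have hx := x'.2
        simp only at hc
        split_ifs at hc <;> omega
      · exfalso
        have h2 : (i' : ℕ) ≠ i0 := fun h'' => h' (by rw [Fin.ext h''])
        have h2 : (i : ℕ) ≠ i0 := fun h'' => h (by rw [Fin.ext h''])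
        apply hne
        simp only at hc
        congr 1
        apply Fin.ext
        split_ifs at hc <;> omega

lemma hom_surjective {A r d d' : ℕ} (h3 : 3 ≤ d) (hA : d ≤ A) {f : W A r → W A r}
    (hf : IsHom A r d d' f) : Function.Surjective f := by
  by_contra hcon
  unfold Function.Surjective at hcon
  push Not at hcon
  obtain ⟨y0, hy0⟩ := hcon
  obtain ⟨c, hc1, hc2⟩ := exists_colouring A r d' y0
  have key : ∀ u v, u ≠ v → c (f u) = c (f v) → HW A r d u v := by
    intro u v huv hc
    by_contra hH
    have h1 := hf u v ⟨huv, hH⟩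
    exact h1.2 (hc2 _ _ (hy0 u) (hy0 v) h1.1 hc)
  classical
  let S := Finset.range (A + r) \ Finset.univ.image (fun i : Fin r => c (f (Sum.inr i)))
  have hS : S.card = A := by
    have h1 : (Finset.univ.image (fun i : Fin r => c (f (Sum.inr i)))).card = r := by
      rw [Finset.card_image_of_injective]
      · simp
      · intro i i' h
        by_contra hne
        have := key (Sum.inr i) (Sum.inr i') (fun h' => hne (Sum.inr_injective h')) h
        exact this
    rw [Finset.card_sdiff_of_subset]
    · rw [h1]; simp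
    · intro s hs
      simp only [Finset.mem_image, Finset.mem_univ, true_and] at hs
      obtain ⟨i, rfl⟩ := hs
      exact Finset.mem_range.mpr (hc1 _ (hy0 _))
  have hmaps : ∀ x ∈ (Finset.univ : Finset (Fin (2 * A + 1))), c (f (Sum.inl x)) ∈ S := by
    intro x _
    simp only [S, Finset.mem_sdiff, Finset.mem_range, Finset.mem_image, Finset.mem_univ, true_and,
      not_exists]
    refine ⟨hc1 _ (hy0 _), ?_⟩
    intro i hi
    exact key (Sum.inr i) (Sum.inl x) (by simp) hi
  obtain ⟨s, -, hs⟩ := Finset.exists_lt_card_fiber_of_mul_lt_card_of_maps_to (n := 2) hmaps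
    (by rw [hS]; simp; omega)
  obtain ⟨a, ha, b, hb, e, he, hab, hae, hbe⟩ := Finset.two_lt_card.mp hs
  simp only [Finset.mem_filter, Finset.mem_univ, true_and] at ha hb he
  have k1 := key (Sum.inl a) (Sum.inl b) (fun h => hab (Sum.inl_injective h)) (ha.trans hb.symm)
  have k2 := key (Sum.inl b) (Sum.inl e) (fun h => hbe (Sum.inl_injective h)) (hb.trans he.symm)
  have k3 := key (Sum.inl a) (Sum.inl e) (fun h => hae (Sum.inl_injective h)) (ha.trans he.symm)
  have hav := a.2
  have hbv := b.2
  have hev := e.2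
  exact triangle_free h3 hA (x := a) (y := b) (z := e) (by omega) (by omega) (by omega)
    k1 k2 k3



/-! ### Edge preserving bijections of the cycles with a chord -/

/-- cyclic adjacency -/
def Cyc (A x y : ℕ) : Prop :=
  y = x + 1 ∨ x = y + 1 ∨ (x = 0 ∧ y = 2 * A) ∨ (x = 2 * A ∧ y = 0)

/-- the inverse of a homomorphism preserves the adjacency of the cycles with a chord -/
lemma hom_inverse {A r d d' : ℕ} {f : W A r → W A r} (hf : IsHom A r d d' f)
    {u v : W A r} (h : HW A r d' (f u) (f v)) (huv : f u ≠ f v) :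
    HW A r d u v := by
  by_contra hcon
  have := hf u v ⟨fun h' => huv (by rw [h']), hcon⟩
  exact this.2 h

lemma HW_irrefl {A r d : ℕ} (hA : 1 ≤ A) (hd : 1 ≤ d) (u : W A r) : ¬ HW A r d u u := by
  cases u
  · simp only [HW, HAdj]; omega
  · simp [HW]

/-- structure of the edge preserving injections `g` from the graph with chord `d` to the graph
with chord `d'`. -/
lemma structure_inl {A r d d' : ℕ} (hA : 3 ≤ A) {g : W A r → W A r}
    (hg : ∀ u v, HW A r d u v → HW A r d' (g u) (g v)) (x : Fin (2 * A + 1)) :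
    ∃ y : Fin (2 * A + 1), g (Sum.inl x) = Sum.inl y := by
  have hx := x.2
  obtain ⟨z, hz⟩ : ∃ z : Fin (2 * A + 1), HAdj A d x z := by
    rcases Nat.eq_zero_or_pos (x : ℕ) with h | h
    · exact ⟨⟨1, by omega⟩, Or.inl (by simp [h])⟩
    · exact ⟨⟨x - 1, by omega⟩, Or.inr (Or.inl (by simp; omega))⟩
  have h1 := hg (Sum.inl x) (Sum.inl z) hz
  cases h2 : g (Sum.inl x) with
  | inl y => exact ⟨y, rfl⟩
  | inr i => rw [h2] at h1; simp [HW] at h1

lemma deg3 {A d v a b c : ℕ} (ha : a ≤ 2 * A) (hb : b ≤ 2 * A)
    (hc : c ≤ 2 * A) (hab : a ≠ b) (hac : a ≠ c) (hbc : b ≠ c) (h1 : HAdj A d v a)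
    (h2 : HAdj A d v b) (h3 : HAdj A d v c) : v = 0 ∨ v = d := by
  unfold HAdj at *; omega

/-- The facts about a map `γ` of the cycle. -/
structure Good (A d d' : ℕ) (γ : ℕ → ℕ) : Prop where
  le : ∀ x ≤ 2 * A, γ x ≤ 2 * A
  inj : ∀ x ≤ 2 * A, ∀ y ≤ 2 * A, γ x = γ y → x = y
  hom : ∀ x ≤ 2 * A, ∀ y ≤ 2 * A, HAdj A d x y → HAdj A d' (γ x) (γ y)

lemma Good.zero {A d d' : ℕ} {γ : ℕ → ℕ} (h : Good A d d' γ) (h3 : 3 ≤ d) (hA : d ≤ A) :
    γ 0 = 0 ∨ γ 0 = d' := by
  have h1 := h.hom 0 (by omega) 1 (by omega) (by unfold HAdj; omega)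
  have h2 := h.hom 0 (by omega) (2 * A) (by omega) (by unfold HAdj; omega)
  have h4 := h.hom 0 (by omega) d (by omega) (by unfold HAdj; omega)
  refine deg3 (h.le 1 (by omega)) (h.le (2 * A) (by omega))
    (h.le d (by omega)) ?_ ?_ ?_ h1 h2 h4
  · intro e; have := h.inj _ (by omega) _ (by omega) e; omega
  · intro e; have := h.inj _ (by omega) _ (by omega) e; omega
  · intro e; have := h.inj _ (by omega) _ (by omega) e; omega

lemma Good.chord {A d d' : ℕ} {γ : ℕ → ℕ} (h : Good A d d' γ) (h3 : 3 ≤ d) (hA : d ≤ A) :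
    γ d = 0 ∨ γ d = d' := by
  have h1 := h.hom d (by omega) (d + 1) (by omega) (by unfold HAdj; omega)
  have h2 := h.hom d (by omega) (d - 1) (by omega) (by unfold HAdj; omega)
  have h4 := h.hom d (by omega) 0 (by omega) (by unfold HAdj; omega)
  refine deg3 (h.le (d + 1) (by omega)) (h.le (d - 1) (by omega))
    (h.le 0 (by omega)) ?_ ?_ ?_ h1 h2 h4
  · intro e; have := h.inj _ (by omega) _ (by omega) e; omega
  · intro e; have := h.inj _ (by omega) _ (by omega) e; omega
  · intro e; have := h.inj _ (by omega) _ (by omega) e; omega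

lemma Good.cyc {A d d' : ℕ} {γ : ℕ → ℕ} (h : Good A d d' γ) (h3 : 3 ≤ d) (hA : d ≤ A)
    {x y : ℕ} (hx : x ≤ 2 * A) (hy : y ≤ 2 * A) (hc : Cyc A x y) : Cyc A (γ x) (γ y) := by
  have h0 := h.zero h3 hA
  have hd := h.chord h3 hA
  have h1 := h.hom x hx y hy (by unfold Cyc at hc; unfold HAdj; omega)
  have hne : γ 0 ≠ γ d := by
    intro e; have := h.inj _ (by omega) _ (by omega) e; omega
  have hx' := h.le x hx
  have hy' := h.le y hy
  -- if the image is the chord, then `{x,y} = {0,d}`
  by_contra hcon
  have h2 : (γ x = 0 ∧ γ y = d') ∨ (γ x = d' ∧ γ y = 0) := by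
    unfold HAdj at h1; unfold Cyc at hcon; omega
  have h4 : (γ x = γ 0 ∧ γ y = γ d) ∨ (γ x = γ d ∧ γ y = γ 0) := by omega
  rcases h4 with ⟨e1, e2⟩ | ⟨e1, e2⟩
  · have e3 := h.inj _ hx _ (by omega) e1
    have e4 := h.inj _ hy _ (by omega) e2
    unfold Cyc at hc; omega
  · have e3 := h.inj _ hx _ (by omega) e1
    have e4 := h.inj _ hy _ (by omega) e2
    unfold Cyc at hc; omega

lemma cyc_unique {A v a b c : ℕ} (ha : a ≤ 2 * A) (hb : b ≤ 2 * A)
    (hc : c ≤ 2 * A) (h1 : Cyc A v a) (h2 : Cyc A v b) (h3 : Cyc A v c) (hab : a ≠ b)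
    (hac : a ≠ c) : b = c := by
  unfold Cyc at *; omega

/-- Two good maps which agree at `0` and `1` agree. -/
lemma Good.unique {A d d' : ℕ} {γ γ' : ℕ → ℕ} (h : Good A d d' γ) (h' : Good A d d' γ')
    (h3 : 3 ≤ d) (hA : d ≤ A) (e0 : γ 0 = γ' 0) (e1 : γ 1 = γ' 1) :
    ∀ x, x + 1 ≤ 2 * A → γ x = γ' x ∧ γ (x + 1) = γ' (x + 1) := by
  intro x
  induction x with
  | zero => intro _; exact ⟨e0, e1⟩
  | succ x ih =>
    intro hx
    obtain ⟨i1, i2⟩ := ih (by omega)
    refine ⟨i2, ?_⟩
    have c1 := h.cyc h3 hA (x := x + 1) (y := x) (by omega) (by omega) (by unfold Cyc; omega)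
    have c2 := h.cyc h3 hA (x := x + 1) (y := x + 1 + 1) (by omega) (by omega) (by unfold Cyc; omega)
    have c3 := h'.cyc h3 hA (x := x + 1) (y := x + 1 + 1) (by omega) (by omega) (by unfold Cyc; omega)
    rw [← i2] at c3
    refine cyc_unique (h.le x (by omega)) (h.le (x + 1 + 1) (by omega))
      (h'.le (x + 1 + 1) (by omega)) c1 c2 c3 ?_ ?_
    · intro e; have := h.inj _ (by omega) _ (by omega) e; omega
    · rw [i1]; intro e; have := h'.inj _ (by omega) _ (by omega) e; omega

/-- A good map has one of four explicit forms. -/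
lemma Good.forms {A d d' : ℕ} {γ : ℕ → ℕ} (h : Good A d d' γ) (h3 : 3 ≤ d) (hA : d ≤ A)
    (h3' : 3 ≤ d') (hA' : d' ≤ A) : d = d' := by
  have h0 := h.zero h3 hA
  have hd := h.chord h3 hA
  have hne : γ 0 ≠ γ d := by
    intro e; have := h.inj _ (by omega) _ (by omega) e; omega
  have h01 := h.cyc h3 hA (x := 0) (y := 1) (by omega) (by omega) (by unfold Cyc; omega)
  -- the value at `x`
  have key : ∀ x, x + 1 ≤ A + 1 →
      ((γ 0 = 0 ∧ γ 1 = 1) → γ x = x ∧ γ (x + 1) = x + 1) ∧
      ((γ 0 = 0 ∧ γ 1 = 2 * A) → (γ x + x = 0 ∨ γ x + x = 2 * A + 1) ∧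
        (γ (x + 1) + (x + 1) = 0 ∨ γ (x + 1) + (x + 1) = 2 * A + 1)) ∧
      ((γ 0 = d' ∧ γ 1 = d' + 1) → (γ x = d' + x ∨ γ x + (2 * A + 1) = d' + x) ∧
        (γ (x + 1) = d' + (x + 1) ∨ γ (x + 1) + (2 * A + 1) = d' + (x + 1))) ∧
      ((γ 0 = d' ∧ γ 1 + 1 = d') → (γ x + x = d' ∨ γ x + x = d' + (2 * A + 1)) ∧
        (γ (x + 1) + (x + 1) = d' ∨ γ (x + 1) + (x + 1) = d' + (2 * A + 1))) := by
    intro x
    induction x with
    | zero =>
      intro _
      simp only [zero_add]
      refine ⟨by omega, by omega, by omega, by omega⟩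
    | succ x ih =>
      intro hx
      obtain ⟨k1, k2, k3, k4⟩ := ih (by omega)
      have c1 := h.cyc h3 hA (x := x + 1) (y := x + 1 + 1) (by omega) (by omega)
        (by unfold Cyc; omega)
      have hl0 := h.le x (by omega)
      have hl1 := h.le (x + 1) (by omega)
      have hl2 := h.le (x + 1 + 1) (by omega)
      have hne2 : γ x ≠ γ (x + 1 + 1) := by
        intro e; have := h.inj _ (by omega) _ (by omega) e; omega
      unfold Cyc at c1
      refine ⟨?_, ?_, ?_, ?_⟩
      · intro hh
        have := k1 hh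
        clear ih k1 k2 k3 k4 h0 hd hne h01 hh
        omega
      · intro hh
        have := k2 hh
        clear ih k1 k2 k3 k4 h0 hd hne h01 hh
        omega
      · intro hh
        have := k3 hh
        clear ih k1 k2 k3 k4 h0 hd hne h01 hh
        omega
      · intro hh
        have := k4 hh
        clear ih k1 k2 k3 k4 h0 hd hne h01 hh
        omega
  obtain ⟨k1, k2, k3, k4⟩ := key d (by omega)
  unfold Cyc at h01
  have hl1 := h.le 1 (by omega)
  rcases h0 with h0 | h0
  · rw [h0] at h01
    have hd' : γ d = d' := by omega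
    have h5 : γ 1 = 1 ∨ γ 1 = 2 * A := by omega
    rcases h5 with h5 | h5
    · have := k1 ⟨h0, h5⟩; omega
    · have := k2 ⟨h0, h5⟩
      omega
  · rw [h0] at h01
    have hd' : γ d = 0 := by omega
    have h5 : γ 1 = d' + 1 ∨ γ 1 + 1 = d' := by omega
    rcases h5 with h5 | h5
    · have := k3 ⟨h0, h5⟩
      omega
    · have := k4 ⟨h0, h5⟩
      omega

/-- From an edge preserving injection of the cycles with a chord (and isolated vertices) to a map
of naturals. -/
lemma exists_good {A r d d' : ℕ} (hA : 3 ≤ A) {g : W A r → W A r} (hinj : Function.Injective g)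
    (hg : ∀ u v, HW A r d u v → HW A r d' (g u) (g v)) :
    ∃ γ : ℕ → ℕ, Good A d d' γ ∧ ∀ x : Fin (2 * A + 1), ∀ h : γ x < 2 * A + 1,
      g (Sum.inl x) = Sum.inl ⟨γ x, h⟩ := by
  choose γ0 hγ0 using structure_inl hA hg
  refine ⟨fun n => if h : n < 2 * A + 1 then (γ0 ⟨n, h⟩ : ℕ) else 0, ⟨?_, ?_, ?_⟩, ?_⟩
  · intro x hx
    have h : x < 2 * A + 1 := by omega
    simp only [h, dite_true]
    have := (γ0 ⟨x, h⟩).2
    omega
  · intro x hx y hy hxy
    have h : x < 2 * A + 1 := by omega
    have h' : y < 2 * A + 1 := by omega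
    simp only [h, h', dite_true] at hxy
    have h1 : γ0 ⟨x, h⟩ = γ0 ⟨y, h'⟩ := Fin.ext hxy
    have h2 : g (Sum.inl ⟨x, h⟩) = g (Sum.inl ⟨y, h'⟩) := by rw [hγ0, hγ0, h1]
    have h3 := Sum.inl_injective (hinj h2)
    exact congrArg Fin.val h3
  · intro x hx y hy hxy
    have h : x < 2 * A + 1 := by omega
    have h' : y < 2 * A + 1 := by omega
    simp only [h, h', dite_true]
    have := hg (Sum.inl ⟨x, h⟩) (Sum.inl ⟨y, h'⟩) hxy
    rw [hγ0, hγ0] at this
    exact this
  · intro x h
    have hx := x.2
    rw [hγ0]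
    congr 1
    apply Fin.ext
    simp only [hx, dite_true]



/-! ### Homomorphisms between the building blocks -/

lemma hom_bijective {A r d d' : ℕ} (h3 : 3 ≤ d) (hA : d ≤ A) {f : W A r → W A r}
    (hf : IsHom A r d d' f) : Function.Bijective f :=
  Function.Surjective.bijective_of_finite (hom_surjective h3 hA hf)

lemma hom_eq {A r d d' : ℕ} (h3 : 3 ≤ d) (hA : d ≤ A) (h3' : 3 ≤ d') (hA' : d' ≤ A)
    {f : W A r → W A r} (hf : IsHom A r d d' f) : d = d' := by
  have hb := hom_bijective h3 hA hf
  let e : W A r ≃ W A r := Equiv.ofBijective f hb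
  have hg : ∀ u v, HW A r d' u v → HW A r d (e.symm u) (e.symm v) := by
    intro u v h
    have e1 : f (e.symm u) = u := e.apply_symm_apply u
    have e2 : f (e.symm v) = v := e.apply_symm_apply v
    apply hom_inverse hf
    · rw [e1, e2]; exact h
    · rw [e1, e2]
      intro huv
      rw [huv] at h
      exact HW_irrefl (by omega) (by omega) v h
  obtain ⟨γ, hγ, -⟩ := exists_good (by omega) e.symm.injective hg
  exact (hγ.forms h3' hA' h3 hA).symm

/-- the set of endomorphisms of a building block -/
def E (A r d : ℕ) : Set (W A r → W A r) := {f | IsHom A r d d f}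

lemma E_pow {A r d : ℕ} (e : Equiv.Perm (W A r)) (he : ⇑e ∈ E A r d) (n : ℕ) :
    ⇑(e ^ n) ∈ E A r d := by
  induction n with
  | zero => intro u v h; simpa using h
  | succ n ih =>
    intro u v h
    rw [pow_succ', Equiv.Perm.mul_apply, Equiv.Perm.mul_apply]
    exact he _ _ (ih _ _ h)

lemma E_inv {A r d : ℕ} (e : Equiv.Perm (W A r)) (he : ⇑e ∈ E A r d) :
    ⇑(e⁻¹) ∈ E A r d := by
  have h1 : e ^ (orderOf e - 1) = e⁻¹ := by
    have hpos := orderOf_pos e
    rw [eq_inv_iff_mul_eq_one, ← pow_succ]
    have : orderOf e - 1 + 1 = orderOf e := by omega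
    rw [this, pow_orderOf_eq_one]
  rw [← h1]
  exact E_pow e he _

/-- endomorphisms of a block preserve the adjacency of the cycle with a chord. -/
lemma E_preserves {A r d : ℕ} (h3 : 3 ≤ d) (hA : d ≤ A) {f : W A r → W A r} (hf : f ∈ E A r d)
    {u v : W A r} (h : HW A r d u v) : HW A r d (f u) (f v) := by
  have hb := hom_bijective h3 hA hf
  let e : Equiv.Perm (W A r) := Equiv.ofBijective f hb
  have hi : ⇑(e⁻¹) ∈ E A r d := E_inv e hf
  have e1 : e⁻¹ (f u) = u := e.symm_apply_apply u
  have e2 : e⁻¹ (f v) = v := e.symm_apply_apply v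
  apply hom_inverse hi
  · rw [e1, e2]; exact h
  · rw [e1, e2]
    intro huv
    rw [huv] at h
    exact HW_irrefl (by omega) (by omega) v h

lemma E_reflects {A r d : ℕ} (h3 : 3 ≤ d) (hA : d ≤ A) {f : W A r → W A r} (hf : f ∈ E A r d)
    (u v : W A r) : CAdj A r d (f u) (f v) ↔ CAdj A r d u v := by
  constructor
  · intro h
    refine ⟨fun h' => h.1 (by rw [h']), fun h' => h.2 (E_preserves h3 hA hf h')⟩
  · exact hf u v

lemma E_inr {A r d : ℕ} (h3 : 3 ≤ d) (hA : d ≤ A) {f : W A r → W A r} (hf : f ∈ E A r d)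
    (i : Fin r) : ∃ j : Fin r, f (Sum.inr i) = Sum.inr j := by
  have hb := hom_bijective h3 hA hf
  let e : Equiv.Perm (W A r) := Equiv.ofBijective f hb
  have hi : ⇑(e⁻¹) ∈ E A r d := E_inv e hf
  cases h : f (Sum.inr i) with
  | inr j => exact ⟨j, rfl⟩
  | inl x =>
    exfalso
    obtain ⟨y, hy⟩ := structure_inl (by omega) (fun u v => E_preserves h3 hA hi (u := u) (v := v)) x
    rw [← h] at hy
    have e1 : e⁻¹ (f (Sum.inr i)) = Sum.inr i := e.symm_apply_apply _
    rw [e1] at hy
    cases hy

lemma E_finite (A r d : ℕ) : (E A r d).Finite := Set.toFinite _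

/-- upper bound for the number of endomorphisms of a block, independent of `A` and `d`. -/
lemma E_upper {A r d : ℕ} (h3 : 3 ≤ d) (hA : d ≤ A) : (E A r d).ncard ≤ 4 * r ^ r := by
  classical
  let z : W A r := Sum.inl ⟨0, by omega⟩
  let o : W A r := Sum.inl ⟨1, by omega⟩
  let S1 : Finset (W A r × W A r) :=
    {(z, o), (z, Sum.inl ⟨2 * A, by omega⟩), (Sum.inl ⟨d, by omega⟩, Sum.inl ⟨d + 1, by omega⟩),
      (Sum.inl ⟨d, by omega⟩, Sum.inl ⟨d - 1, by omega⟩)}
  let S2 : Finset (Fin r → W A r) :=
    (Finset.univ : Finset (Fin r → Fin r)).image fun h i => Sum.inr (h i)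
  have hS1 : S1.card ≤ 4 := Finset.card_le_four
  have hS2 : S2.card ≤ r ^ r := by
    refine le_trans Finset.card_image_le ?_
    simp
  have h1 : (E A r d).ncard ≤ ((S1 ×ˢ S2 : Finset _) : Set ((W A r × W A r) × (Fin r → W A r))).ncard := by
    refine Set.ncard_le_ncard_of_injOn (fun f => ((f z, f o), fun i => f (Sum.inr i))) ?_ ?_
      (Finset.finite_toSet _)
    · intro f hf
      obtain ⟨γ, hγ, hγf⟩ := exists_good (by omega) (hom_bijective h3 hA hf).1
        (fun u v => E_preserves h3 hA hf (u := u) (v := v))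
      have l0 := hγ.le 0 (by omega)
      have l1 := hγ.le 1 (by omega)
      have z0 := hγ.zero h3 hA
      have c0 := hγ.cyc h3 hA (x := 0) (y := 1) (by omega) (by omega) (by unfold Cyc; omega)
      have fz : f z = Sum.inl ⟨γ 0, by omega⟩ := hγf ⟨0, by omega⟩ (by simp only; omega)
      have fo : f o = Sum.inl ⟨γ 1, by omega⟩ := hγf ⟨1, by omega⟩ (by simp only; omega)
      simp only [Finset.coe_product, Set.mem_prod, Finset.mem_coe]
      refine ⟨?_, ?_⟩
      · simp only [S1, Finset.mem_insert, Finset.mem_singleton, Prod.mk.injEq, fz, fo, z, o,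
          Sum.inl.injEq, Fin.mk.injEq]
        unfold Cyc at c0
        omega
      · simp only [S2, Finset.mem_image, Finset.mem_univ, true_and]
        choose j hj using E_inr h3 hA hf
        exact ⟨j, funext fun i => (hj i).symm⟩
    · intro f hf g hg hfg
      simp only [Prod.mk.injEq] at hfg
      obtain ⟨⟨k1, k2⟩, k3⟩ := hfg
      obtain ⟨γ, hγ, hγf⟩ := exists_good (by omega) (hom_bijective h3 hA hf).1
        (fun u v => E_preserves h3 hA hf (u := u) (v := v))
      obtain ⟨γ', hγ', hγf'⟩ := exists_good (by omega) (hom_bijective h3 hA hg).1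
        (fun u v => E_preserves h3 hA hg (u := u) (v := v))
      have l0 := hγ.le 0 (by omega)
      have l1 := hγ.le 1 (by omega)
      have l0' := hγ'.le 0 (by omega)
      have l1' := hγ'.le 1 (by omega)
      have fz : f z = Sum.inl ⟨γ 0, by omega⟩ := hγf ⟨0, by omega⟩ (by simp only; omega)
      have fo : f o = Sum.inl ⟨γ 1, by omega⟩ := hγf ⟨1, by omega⟩ (by simp only; omega)
      have gz : g z = Sum.inl ⟨γ' 0, by omega⟩ := hγf' ⟨0, by omega⟩ (by simp only; omega)
      have go : g o = Sum.inl ⟨γ' 1, by omega⟩ := hγf' ⟨1, by omega⟩ (by simp only; omega)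
      rw [fz, gz, Sum.inl.injEq, Fin.mk.injEq] at k1
      rw [fo, go, Sum.inl.injEq, Fin.mk.injEq] at k2
      have huniq := hγ.unique hγ' h3 hA k1 k2
      funext u
      cases u with
      | inl x =>
        have hx := x.2
        have e1 : γ x = γ' x := by
          rcases Nat.lt_or_ge (x : ℕ) (2 * A) with h | h
          · exact (huniq x (by omega)).1
          · have h2 : (x : ℕ) = 2 * A := by omega
            have h3 := (huniq (2 * A - 1) (by omega)).2
            have h4 : 2 * A - 1 + 1 = 2 * A := by omega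
            rw [h4] at h3
            rw [h2]; exact h3
        have lx := hγ.le x (by omega)
        have lx' := hγ'.le x (by omega)
        rw [hγf x (by omega), hγf' x (by omega)]
        congr 1
        exact Fin.ext e1
      | inr i => exact congrFun k3 i
  refine h1.trans ?_
  rw [Set.ncard_coe_finset, Finset.card_product]
  exact Nat.mul_le_mul hS1 hS2

lemma E_lower {A r d : ℕ} : r ≤ (E A r d).ncard := by
  classical
  have h1 : (Set.univ : Set (Equiv.Perm (Fin r))).ncard ≤ (E A r d).ncard := by
    refine Set.ncard_le_ncard_of_injOn (fun σ => Sum.map id σ) ?_ ?_ (E_finite A r d)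
    · intro σ _ u v h
      refine ⟨?_, ?_⟩
      · intro h'
        apply h.1
        have hinj : Function.Injective (Sum.map (id : Fin (2 * A + 1) → Fin (2 * A + 1)) σ) :=
          Sum.map_injective.mpr ⟨Function.injective_id, σ.injective⟩
        exact hinj h'
      · intro h'
        apply h.2
        cases u <;> cases v <;> simp_all [HW]
    · intro σ _ τ _ h
      apply Equiv.ext
      intro i
      have := congrFun h (Sum.inr i)
      simpa using this
  rw [Set.ncard_univ, Nat.card_perm, Nat.card_eq_fintype_card, Fintype.card_fin] at h1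
  exact (Nat.self_le_factorial r).trans h1



/-! ### The graphs -/

/-- Adjacency of the disjoint union of a looped vertex and of `t` blocks. -/
def bigAdj (A r t : ℕ) : Option (Fin t × W A r) → Option (Fin t × W A r) → Prop
  | none, none => True
  | some a, some b => a.1 = b.1 ∧ CAdj A r (a.1 + 3) a.2 b.2
  | _, _ => False

/-- The disjoint union of a looped vertex and of `t` blocks. -/
def big (A r t : ℕ) : LGraph (Option (Fin t × W A r)) where
  Adj := bigAdj A r t
  symm := by
    rintro (_ | ⟨i, u⟩) (_ | ⟨j, v⟩) h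
    · trivial
    · exact h.elim
    · exact h.elim
    · obtain ⟨h1, h2⟩ := h
      simp only at h1 h2
      subst h1
      exact ⟨rfl, h2.symm⟩

section Big

variable {A r t : ℕ}

/-- The self-map described by a choice, for every block, of an endomorphism of the block or of
`none` (collapse the block to the looped vertex). -/
def Φ (g : ∀ i : Fin t, Option (E A r (i + 3))) :
    Option (Fin t × W A r) → Option (Fin t × W A r)
  | none => none
  | some (i, u) => (g i).map fun e => (i, e.1 u)

lemma Φ_mem (g : ∀ i : Fin t, Option (E A r (i + 3))) : Φ g ∈ strictEnd (big A r t) := by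
  rintro (_ | ⟨i, u⟩) (_ | ⟨j, v⟩) h
  · trivial
  · exact h.elim
  · exact h.elim
  · obtain ⟨h1, h2⟩ := h
    simp only at h1 h2
    subst h1
    show bigAdj A r t (Φ g (some (i, u))) (Φ g (some (i, v)))
    cases hg : g i with
    | none => simp [Φ, hg, bigAdj]
    | some e =>
      simp only [Φ, hg, Option.map_some, bigAdj, true_and]
      exact e.2 u v h2

lemma Φ_surj (hr : 1 ≤ r) (ht : t + 2 ≤ A) {f : Option (Fin t × W A r) → Option (Fin t × W A r)}
    (hf : f ∈ strictEnd (big A r t)) : ∃ g, Φ g = f := by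
  classical
  have hf' : ∀ x y, bigAdj A r t x y → bigAdj A r t (f x) (f y) := hf
  have hnone : f none = none := by
    have := hf' none none trivial
    cases h : f none with
    | none => rfl
    | some a =>
      rw [h] at this
      exact absurd rfl this.2.1
  let z : W A r := Sum.inr ⟨0, by omega⟩
  have hz : ∀ (d : ℕ) (u : W A r), u ≠ z → CAdj A r d z u := by
    intro d u hu
    refine ⟨fun h => hu h.symm, ?_⟩
    simp [z, HW]
  have key : ∀ i : Fin t, ∃ gi : Option (E A r (i + 3)),
      ∀ u, f (some (i, u)) = gi.map fun e => (i, e.1 u) := by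
    intro i
    cases h : f (some (i, z)) with
    | none =>
      refine ⟨none, ?_⟩
      intro u
      by_cases hu : u = z
      · rw [hu, h]; rfl
      · have h1 := hf' (some (i, z)) (some (i, u)) ⟨rfl, hz _ u hu⟩
        rw [h] at h1
        cases h2 : f (some (i, u)) with
        | none => rfl
        | some a => rw [h2] at h1; exact h1.elim
    | some a =>
      obtain ⟨j, y⟩ := a
      have h0 : ∀ u, ∃ y', f (some (i, u)) = some (j, y') := by
        intro u
        by_cases hu : u = z
        · exact ⟨y, by rw [hu, h]⟩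
        · have h1 := hf' (some (i, z)) (some (i, u)) ⟨rfl, hz _ u hu⟩
          rw [h] at h1
          cases h2 : f (some (i, u)) with
          | none => rw [h2] at h1; exact h1.elim
          | some a =>
            rw [h2] at h1
            obtain ⟨k, y'⟩ := a
            have h3 : j = k := h1.1
            exact ⟨y', by rw [h3]⟩
      choose φ hφ using h0
      have hhom : IsHom A r (i + 3) (j + 3) φ := by
        intro u v huv
        have h1 := hf' (some (i, u)) (some (i, v)) ⟨rfl, huv⟩
        rw [hφ, hφ] at h1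
        exact h1.2
      have hi := i.2
      have hj := j.2
      have hij : (i : ℕ) + 3 = j + 3 := hom_eq (by omega) (by omega) (by omega) (by omega) hhom
      have hij' : i = j := Fin.ext (by omega)
      subst hij'
      exact ⟨some ⟨φ, hhom⟩, fun u => by rw [hφ]; rfl⟩
  choose g hg using key
  refine ⟨g, ?_⟩
  funext x
  rcases x with _ | ⟨i, u⟩
  · exact hnone.symm
  · exact (hg i u).symm

lemma Φ_inj (hr : 1 ≤ r) : Function.Injective (Φ : (∀ i : Fin t, Option (E A r (i + 3))) → _) := by
  intro g g' h
  funext i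
  have h1 : ∀ u, (g i).map (fun e => (i, e.1 u)) = (g' i).map fun e => (i, e.1 u) := by
    intro u
    exact congrFun h (some (i, u))
  have z : W A r := Sum.inr ⟨0, by omega⟩
  cases h2 : g i with
  | none =>
    cases h3 : g' i with
    | none => rfl
    | some e' => have := h1 z; rw [h2, h3] at this; simp at this
  | some e =>
    cases h3 : g' i with
    | none => have := h1 z; rw [h2, h3] at this; simp at this
    | some e' =>
      congr 1
      apply Subtype.ext
      funext u
      have := h1 u
      rw [h2, h3] at this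
      simpa using this

lemma card_strictEnd (hr : 1 ≤ r) (ht : t + 2 ≤ A) :
    (strictEnd (big A r t)).ncard = ∏ i : Fin t, ((E A r (i + 3)).ncard + 1) := by
  have h1 : strictEnd (big A r t) = Φ '' Set.univ := by
    ext f
    simp only [Set.image_univ, Set.mem_range]
    constructor
    · intro hf
      exact Φ_surj hr ht hf
    · rintro ⟨g, rfl⟩
      exact Φ_mem g
  rw [h1, Set.ncard_image_of_injective _ (Φ_inj hr), Set.ncard_univ, Nat.card_pi]
  refine Finset.prod_congr rfl fun i _ => ?_
  rw [Finite.card_option, Nat.card_coe_set_eq]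

lemma card_aut (hr : 1 ≤ r) (ht : t + 2 ≤ A) :
    (aut (big A r t)).ncard = ∏ i : Fin t, (E A r (i + 3)).ncard := by
  have h1 : aut (big A r t) =
      (fun g : ∀ i : Fin t, E A r (i + 3) => Φ fun i => some (g i)) '' Set.univ := by
    ext f
    simp only [Set.image_univ, Set.mem_range]
    constructor
    · rintro ⟨hb, hf⟩
      obtain ⟨g, rfl⟩ := Φ_surj hr ht (f := f) (fun x y h => (hf x y).mp h)
      have hne : ∀ i, ∃ e, g i = some e := by
        intro i
        cases h : g i with
        | some e => exact ⟨e, rfl⟩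
        | none =>
          exfalso
          have h2 : Φ g (some (i, Sum.inr ⟨0, by omega⟩)) = Φ g none := by
            simp [Φ, h]
          have := hb.1 h2
          cases this
      choose e he using hne
      refine ⟨e, ?_⟩
      congr 1
      funext i
      rw [he]
    · rintro ⟨g, rfl⟩
      have hmem := Φ_mem (fun i => some (g i))
      have hinj : Function.Injective (Φ fun i => some (g i)) := by
        rintro (_ | ⟨i, u⟩) (_ | ⟨j, v⟩) h
        · rfl
        · simp [Φ] at h
        · simp [Φ] at h
        · simp only [Φ, Option.map_some, Option.some.injEq, Prod.mk.injEq] at h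
          obtain ⟨h1, h2⟩ := h
          subst h1
          have hi := i.2
          have := (hom_bijective (by omega) (by omega) (g i).2).1 h2
          rw [this]
      refine ⟨Finite.injective_iff_bijective.mp hinj, ?_⟩
      intro x y
      refine ⟨fun h => hmem x y h, ?_⟩
      rcases x with _ | ⟨i, u⟩ <;> rcases y with _ | ⟨j, v⟩
      · intro _; trivial
      · intro h; exact h.elim
      · intro h; exact h.elim
      · intro h
        obtain ⟨h1, h2⟩ := h
        simp only at h1 h2
        subst h1
        have hi := i.2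
        exact ⟨rfl, (E_reflects (by omega) (by omega) (g i).2 u v).mp h2⟩
  have hinj : Function.Injective
      (fun g : ∀ i : Fin t, E A r (i + 3) => Φ fun i => some (g i)) := by
    intro g g' h
    have := Φ_inj hr h
    funext i
    exact Option.some_injective _ (congrFun this i)
  rw [h1, Set.ncard_image_of_injective _ hinj, Set.ncard_univ, Nat.card_pi]
  refine Finset.prod_congr rfl fun i _ => ?_
  rw [Nat.card_coe_set_eq]

/-- The ratio of a big graph. -/
noncomputable def P (A r t : ℕ) : ℝ :=
  ∏ i ∈ Finset.range t, (((E A r (i + 3)).ncard : ℝ) / ((E A r (i + 3)).ncard + 1))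

lemma ratio_big (hr : 1 ≤ r) (ht : t + 2 ≤ A) : ratio (big A r t) = P A r t := by
  unfold ratio P
  rw [card_strictEnd hr ht, card_aut hr ht, Finset.prod_range]
  push_cast
  rw [Finset.prod_div_distrib]

end Big

/-! ### Relabelling -/

lemma exists_relabel {V : Type} [Finite V] (G : LGraph V) :
    ∃ G' : LGraph (Fin (Nat.card V)), ratio G' = ratio G := by
  let e : V ≃ Fin (Nat.card V) := Finite.equivFin V
  let G' : LGraph (Fin (Nat.card V)) :=
    ⟨fun x y => G.Adj (e.symm x) (e.symm y), fun x y h => G.symm _ _ h⟩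
  refine ⟨G', ?_⟩
  have hinj : Function.Injective (fun f : V → V => e ∘ f ∘ e.symm) := by
    intro f g h
    funext v
    have := congrFun h (e v)
    simpa using this
  have h1 : strictEnd G' = (fun f : V → V => e ∘ f ∘ e.symm) '' strictEnd G := by
    ext f
    simp only [Set.mem_image]
    constructor
    · intro hf
      refine ⟨e.symm ∘ f ∘ e, ?_, ?_⟩
      · intro x y h
        have := hf (e x) (e y) (by show G.Adj _ _; simpa using h)
        exact this
      · funext v; simp
    · rintro ⟨g, hg, rfl⟩
      intro x y h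
      show G.Adj _ _
      simpa using hg _ _ h
  have h2 : aut G' = (fun f : V → V => e ∘ f ∘ e.symm) '' aut G := by
    ext f
    simp only [Set.mem_image]
    constructor
    · rintro ⟨hb, hf⟩
      refine ⟨e.symm ∘ f ∘ e, ⟨?_, ?_⟩, ?_⟩
      · exact e.symm.bijective.comp (hb.comp e.bijective)
      · intro x y
        have := hf (e x) (e y)
        show G.Adj x y ↔ G.Adj (e.symm (f (e x))) (e.symm (f (e y)))
        have h3 : G'.Adj (e x) (e y) ↔ G.Adj x y := by
          show G.Adj _ _ ↔ _
          simp
        rw [← h3]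
        exact this
      · funext v; simp
    · rintro ⟨g, ⟨hb, hg⟩, rfl⟩
      refine ⟨e.bijective.comp (hb.comp e.symm.bijective), ?_⟩
      intro x y
      show G.Adj _ _ ↔ G.Adj _ _
      simpa using hg (e.symm x) (e.symm y)
  unfold ratio
  rw [h1, h2, Set.ncard_image_of_injective _ hinj, Set.ncard_image_of_injective _ hinj]

/-! ### Density -/

lemma approx (l ε : ℝ) (hl0 : 0 ≤ l) (hl1 : l ≤ 1) (hε : 0 < ε) (M : ℕ) :
    ∃ (n : ℕ) (G : LGraph (Fin n)), M ≤ n ∧ |ratio G - l| < ε := by
  -- the parameter `r`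
  obtain ⟨r0, hr0⟩ := exists_nat_one_div_lt hε
  set r := r0 + 1 with hr
  have hr1 : 1 ≤ r := by omega
  have hrε : (1 : ℝ) / (r + 1) < ε := by
    refine lt_of_le_of_lt ?_ hr0
    apply one_div_le_one_div_of_le
    · positivity
    · rw [hr]; push_cast; linarith
  -- the uniform bound
  set U : ℝ := ((4 * r ^ r : ℕ) : ℝ) with hU
  have hU1 : 0 ≤ U := by positivity
  have hq1 : U / (U + 1) < 1 := by rw [div_lt_one (by linarith)]; linarith
  have hq0 : 0 ≤ U / (U + 1) := by positivity
  obtain ⟨T0, hT0⟩ := exists_pow_lt_of_lt_one hε hq1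
  set T := T0 + 1 with hT
  have hTε : (U / (U + 1)) ^ T < ε :=
    lt_of_le_of_lt (pow_le_pow_of_le_one hq0 hq1.le (by omega)) hT0
  set A := T + 2 + M with hA
  have hbound : ∀ i, i < T → (r : ℝ) ≤ ((E A r (i + 3)).ncard : ℝ) ∧
      ((E A r (i + 3)).ncard : ℝ) ≤ U := by
    intro i hi
    constructor
    · exact_mod_cast E_lower
    · rw [hU]
      exact_mod_cast E_upper (by omega) (by omega)
  have hP0 : P A r 0 = 1 := by simp [P]
  have hPs : ∀ t, P A r (t + 1) = P A r t * (((E A r (t + 3)).ncard : ℝ) / ((E A r (t + 3)).ncard + 1)) := by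
    intro t
    unfold P
    rw [Finset.prod_range_succ]
  have hPnn : ∀ t, 0 ≤ P A r t := by
    intro t
    unfold P
    exact Finset.prod_nonneg fun i _ => by positivity
  have hP1 : ∀ t, P A r t ≤ 1 := by
    intro t
    unfold P
    refine Finset.prod_le_one (fun i _ => by positivity) fun i _ => ?_
    rw [div_le_one (by positivity)]
    linarith
  have hPT : P A r T < ε := by
    refine lt_of_le_of_lt ?_ hTε
    unfold P
    calc ∏ i ∈ Finset.range T, (((E A r (i + 3)).ncard : ℝ) / ((E A r (i + 3)).ncard + 1))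
        ≤ ∏ _i ∈ Finset.range T, (U / (U + 1)) := by
          apply Finset.prod_le_prod
          · intro i _; positivity
          · intro i hi
            obtain ⟨-, h2⟩ := hbound i (Finset.mem_range.mp hi)
            have h0 : (0 : ℝ) ≤ ((E A r (i + 3)).ncard : ℝ) := by positivity
            rw [div_le_div_iff₀ (by linarith) (by linarith)]
            nlinarith
      _ = (U / (U + 1)) ^ T := by rw [Finset.prod_const, Finset.card_range]
  have hstep : ∀ t, t < T → P A r t - ε < P A r (t + 1) := by
    intro t ht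
    rw [hPs]
    obtain ⟨h1, -⟩ := hbound t ht
    set N : ℝ := ((E A r (t + 3)).ncard : ℝ) with hN
    have hN0 : 0 ≤ N := by positivity
    have e1 : N / (N + 1) = 1 - 1 / (N + 1) := by field_simp; ring
    have h2 : 1 / (N + 1) < ε := by
      refine lt_of_le_of_lt ?_ hrε
      apply one_div_le_one_div_of_le
      · positivity
      · linarith
    rw [e1]
    have h3 := hPnn t
    have h4 := hP1 t
    have h5 : 0 < 1 / (N + 1) := by positivity
    nlinarith
  -- discrete intermediate value argument
  obtain ⟨t, ht1, htT, ht⟩ : ∃ t, 1 ≤ t ∧ t ≤ T ∧ |P A r t - l| < ε := by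
    by_contra hcon
    push Not at hcon
    have hind : ∀ t, t ≤ T → l ≤ P A r t := by
      intro t
      induction t with
      | zero => intro _; rw [hP0]; exact hl1
      | succ t ih =>
        intro ht
        have h1 := ih (by omega)
        have h2 := hstep t (by omega)
        have h3 := hcon (t + 1) (by omega) ht
        by_contra h4
        push Not at h4
        rw [abs_of_nonpos (by linarith)] at h3
        linarith
    have h1 := hind T le_rfl
    have h2 := hcon T (by omega) le_rfl
    rw [abs_of_nonneg (by linarith)] at h2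
    linarith
  obtain ⟨G', hG'⟩ := exists_relabel (big A r t)
  refine ⟨_, G', ?_, ?_⟩
  · rw [Nat.card_eq_fintype_card]
    simp only [Fintype.card_option, Fintype.card_prod, Fintype.card_fin, Fintype.card_sum]
    have : 1 * (2 * A + 1 + r) ≤ t * (2 * A + 1 + r) := Nat.mul_le_mul_right _ ht1
    omega
  · rw [hG', ratio_big hr1 (by omega)]
    exact ht

lemma ratio_nonneg {V : Type} (G : LGraph V) : 0 ≤ ratio G := by
  unfold ratio; positivity

lemma ratio_le_one {V : Type} [Finite V] (G : LGraph V) : ratio G ≤ 1 := by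
  unfold ratio
  apply div_le_one_of_le₀
  · have hsub : aut G ⊆ strictEnd G := fun f hf x y h => (hf.2 x y).mp h
    exact_mod_cast Set.ncard_le_ncard hsub (Set.toFinite _)
  · positivity

/-- The limiting set is the whole closed unit interval. -/
theorem result : limitSet = Set.Icc 0 1 := by
  apply Set.Subset.antisymm
  · rintro l ⟨n, G, -, hl⟩
    exact ⟨ge_of_tendsto' hl fun k => ratio_nonneg _, le_of_tendsto' hl fun k => ratio_le_one _⟩
  · rintro l ⟨hl0, hl1⟩
    have h : ∀ k : ℕ, ∃ (n : ℕ) (G : LGraph (Fin n)), k ≤ n ∧ |ratio G - l| < 1 / ((k : ℝ) + 1) :=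
      fun k => approx l _ hl0 hl1 (by positivity) k
    choose n G hn hG using h
    refine ⟨n, G, tendsto_atTop_mono hn tendsto_id, ?_⟩
    rw [tendsto_iff_norm_sub_tendsto_zero]
    refine squeeze_zero (fun k => norm_nonneg _) (fun k => (hG k).le) ?_
    exact tendsto_one_div_add_atTop_nhds_zero_nat

end Pool.Agent.Results.MP_e2735d_co.LimitSet
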